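import Pool.Agent.H37.SB.Pl1

/-! BB: the second block. -/

namespace Pool.Agent.H37.SB

open Finset Pool.Agent.H36Sq

theorem loc_BB : ∀ u : Fin 8 → ZMod 2,
    (pl2 0 u 0 + pl2 0 u 2 = (pl1 u 0 + pl1 u 2) + (u 2 + u 3)) ∧
    (pl2 0 u 1 + pl2 0 u 2 = (pl1 u 1 + pl1 u 2) + ((u 0 + u 1) + (u 2 + u 3))) ∧
    (pl3 0 u 0 + pl3 0 u 2 = (pl1 u 0 + pl1 u 2) + ((u 0 + u 1) + (u 2 + u 3))) ∧
    (pl3 0 u 1 + pl3 0 u 2 = (pl1 u 1 + pl1 u 2) + (u 0 + u 1)) ∧
    (pl4 0 u 0 + pl4 0 u 2 = (pl1 u 0 + pl1 u 2) + (u 0 + u 1)) ∧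
    (pl4 0 u 1 + pl4 0 u 2 = (pl1 u 1 + pl1 u 2) + (u 2 + u 3)) := by
  decide +kernel

theorem z2_eq_of_add {a b : ZMod 2} (h : a + b = 0) : a = b := by
  revert h; revert a b; decide

theorem card_blkB {ι : Type} [Fintype ι] [DecidableEq ι]
    (W : Finset ((ι → ZMod 2) × (ι → ZMod 2))) :
    (blkB W).card = 4 ^ Fintype.card ι * W.card := by
  have h4 : (4 : ℕ) ^ Fintype.card ι =
      ((univ : Finset (ι → ZMod 2)) ×ˢ (univ : Finset (ι → ZMod 2))).card := by
    rw [Finset.card_product, Finset.card_univ, Fintype.card_fun, ZMod.card, ← mul_pow]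
    norm_num
  rw [h4, ← Finset.card_product]
  apply Finset.card_bij (fun p _ => (((fun i => p i 2), (fun i => p i 3)),
    ((fun i => p i 0 + p i 2), (fun i => p i 1 + p i 2))))
  · intro p hp
    simp only [blkB, Finset.mem_filter, Finset.mem_univ, true_and] at hp
    simp only [Finset.mem_product, Finset.mem_univ, true_and]
    exact hp
  · intro p _ p' _ h
    simp only [Prod.mk.injEq] at h
    obtain ⟨⟨h2, h3⟩, h0, h1⟩ := h
    funext i j
    have e2 := congrFun h2 i
    have e3 := congrFun h3 i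
    have e0 := congrFun h0 i
    have e1 := congrFun h1 i
    fin_cases j
    · rw [e2] at e0; exact add_right_cancel e0
    · rw [e2] at e1; exact add_right_cancel e1
    · exact e2
    · exact e3
  · rintro ⟨⟨c, m⟩, ⟨x, y⟩⟩ h
    simp only [Finset.mem_product, Finset.mem_univ, true_and] at h
    refine ⟨fun i => ![x i + c i, y i + c i, c i, m i], ?_, ?_⟩
    · simp only [blkB, Finset.mem_filter, Finset.mem_univ, true_and]
      have e1 : (fun i => (![x i + c i, y i + c i, c i, m i] : Fin 4 → ZMod 2) 0 +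
          (![x i + c i, y i + c i, c i, m i] : Fin 4 → ZMod 2) 2) = x := by
        funext i
        change x i + c i + c i = x i
        rw [add_assoc, z2_add_self, add_zero]
      have e2 : (fun i => (![x i + c i, y i + c i, c i, m i] : Fin 4 → ZMod 2) 1 +
          (![x i + c i, y i + c i, c i, m i] : Fin 4 → ZMod 2) 2) = y := by
        funext i
        change y i + c i + c i = y i
        rw [add_assoc, z2_add_self, add_zero]
      rw [e1, e2]; exact h
    · refine Prod.ext (Prod.ext ?_ ?_) (Prod.ext ?_ ?_)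
      · rfl
      · rfl
      · funext i
        change x i + c i + c i = x i
        rw [add_assoc, z2_add_self, add_zero]
      · funext i
        change y i + c i + c i = y i
        rw [add_assoc, z2_add_self, add_zero]

theorem pf_BB : T_BB := by
  intro ι _ _ W
  set K := Fintype.card ι with hK
  refine ⟨card_blkB W, ?_, ?_⟩
  · intro hW
    have h4 : (16 : ℕ) ^ K * W.card = ((blkB W) ×ˢ
        ((univ : Finset (ι → ZMod 2)) ×ˢ (univ : Finset (ι → ZMod 2)))).card := by
      rw [Finset.card_product, Finset.card_product, Finset.card_univ, Fintype.card_fun,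
        ZMod.card, card_blkB, ← hK]
      have : (16 : ℕ) ^ K = 4 ^ K * 4 ^ K := by rw [← mul_pow]; norm_num
      have h2 : (4 : ℕ) ^ K = 2 ^ K * 2 ^ K := by rw [← mul_pow]; norm_num
      rw [this, h2]
      ring
    rw [h4]
    -- the structure of the solutions
    have hstr : ∀ μ : Lab ι, (fun i => pl1 (μ i)) ∈ blkB W →
        (fun i => pl2 ((0 : ι → ZMod 2) i) (μ i)) ∈ blkB W →
        (fun i => pl3 ((0 : ι → ZMod 2) i) (μ i)) ∈ blkB W →
        (fun i => pl4 ((0 : ι → ZMod 2) i) (μ i)) ∈ blkB W →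
        ∀ i, μ i 0 + μ i 1 = 0 ∧ μ i 2 + μ i 3 = 0 := by
      intro μ m1 m2 m3 m4
      simp only [blkB, Finset.mem_filter, Finset.mem_univ, true_and, Pi.zero_apply] at m1 m2 m3 m4
      set x : ι → ZMod 2 := fun i => pl1 (μ i) 0 + pl1 (μ i) 2 with hx
      set y : ι → ZMod 2 := fun i => pl1 (μ i) 1 + pl1 (μ i) 2 with hy
      set u : ι → ZMod 2 := fun i => μ i 0 + μ i 1 with hu
      set v : ι → ZMod 2 := fun i => μ i 2 + μ i 3 with hv
      have e2 : ((fun i => pl2 0 (μ i) 0 + pl2 0 (μ i) 2),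
          (fun i => pl2 0 (μ i) 1 + pl2 0 (μ i) 2)) = (x + v, y + (u + v)) := by
        refine Prod.ext ?_ ?_
        · funext i; exact (loc_BB (μ i)).1
        · funext i; exact (loc_BB (μ i)).2.1
      have e3 : ((fun i => pl3 0 (μ i) 0 + pl3 0 (μ i) 2),
          (fun i => pl3 0 (μ i) 1 + pl3 0 (μ i) 2)) = (x + (u + v), y + u) := by
        refine Prod.ext ?_ ?_
        · funext i; exact (loc_BB (μ i)).2.2.1
        · funext i; exact (loc_BB (μ i)).2.2.2.1
      have e4 : ((fun i => pl4 0 (μ i) 0 + pl4 0 (μ i) 2),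
          (fun i => pl4 0 (μ i) 1 + pl4 0 (μ i) 2)) = (x + u, y + v) := by
        refine Prod.ext ?_ ?_
        · funext i; exact (loc_BB (μ i)).2.2.2.2.1
        · funext i; exact (loc_BB (μ i)).2.2.2.2.2
      rw [e2] at m2
      rw [e3] at m3
      rw [e4] at m4
      have hno : ¬ (u ≠ 0 ∨ v ≠ 0) := fun h => hW x y u v h ⟨m1, m4, m2, m3⟩
      push Not at hno
      intro i
      exact ⟨congrFun hno.1 i, congrFun hno.2 i⟩
    unfold Nsol
    apply Finset.card_le_card_of_injOn
      (fun μ : Lab ι => ((fun i => pl1 (μ i)), ((fun i => μ i 0), (fun i => μ i 2))))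
    · intro μ hμ
      simp only [Finset.coe_filter, Finset.mem_univ, true_and, Set.mem_ofPred_eq] at hμ
      simp only [Finset.coe_product, Set.mem_prod, Finset.mem_coe, Finset.mem_univ, and_true]
      exact hμ.1
    · intro μ hμ ν hν h
      simp only [Finset.coe_filter, Finset.mem_univ, true_and, Set.mem_ofPred_eq] at hμ hν
      have sμ := hstr μ hμ.1 hμ.2.1 hμ.2.2.1 hμ.2.2.2
      have sν := hstr ν hν.1 hν.2.1 hν.2.2.1 hν.2.2.2
      simp only [Prod.mk.injEq] at h
      obtain ⟨h1, h0, h2⟩ := h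
      funext i j
      have a1 : pl1 (μ i) = pl1 (ν i) := congrFun h1 i
      have a0 : μ i 0 = ν i 0 := congrFun h0 i
      have a2 : μ i 2 = ν i 2 := congrFun h2 i
      have b1 : μ i 0 = μ i 1 := z2_eq_of_add (sμ i).1
      have b2 : μ i 2 = μ i 3 := z2_eq_of_add (sμ i).2
      have c1 : ν i 0 = ν i 1 := z2_eq_of_add (sν i).1
      have c2 : ν i 2 = ν i 3 := z2_eq_of_add (sν i).2
      have d4 : μ i 4 = ν i 4 := congrFun a1 0
      have d5 : μ i 5 = ν i 5 := congrFun a1 1
      have d6 : μ i 4 + μ i 5 + μ i 6 = ν i 4 + ν i 5 + ν i 6 := congrFun a1 2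
      have d7 : μ i 7 = ν i 7 := congrFun a1 3
      fin_cases j
      · exact a0
      · exact b1.symm.trans (a0.trans c1)
      · exact a2
      · exact b2.symm.trans (a2.trans c2)
      · exact d4
      · exact d5
      · rw [d4, d5] at d6; exact add_left_cancel d6
      · exact d7
  · have hb : ∀ s, Nsol (blkB W) s ≤ 64 ^ K * W.card := by
      intro s
      have h1 : Nsol (blkB W) s ≤
          (univ.filter (fun μ : Lab ι => (fun i => pl1 (μ i)) ∈ blkB W)).card := by
        unfold Nsol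
        apply Finset.card_le_card
        intro μ hμ
        simp only [Finset.mem_filter, Finset.mem_univ, true_and] at hμ ⊢
        exact hμ.1
      rw [card_pl1_mem, card_blkB] at h1
      refine h1.trans (le_of_eq ?_)
      rw [← hK]
      have : (64 : ℕ) ^ K = 4 ^ K * 16 ^ K := by rw [← mul_pow]; norm_num
      rw [this]; ring
    refine (Finset.sum_le_sum (fun s _ => hb s)).trans (le_of_eq ?_)
    rw [Finset.sum_const, Finset.card_univ, Fintype.card_fun, ZMod.card, ← hK, smul_eq_mul,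
      ← mul_assoc, ← mul_pow]
    norm_num

end Pool.Agent.H37.SB
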