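import Pool.Agent.H37.SB.Pl1
import Pool.Agent.H47.SB.CU

/-! CL: lower bound for the number of points. -/

namespace Pool.Agent.H37.SB

open Finset Pool.Agent.H36Sq Pool.Agent.H47.SB

theorem pf_CL : T_CL := by
  intro t ι _ _ M γ F ht
  set K := Fintype.card ι with hK
  set q : ℝ := (2 : ℝ) ^ t with hq
  have hq0 : 0 ≤ q := by positivity
  obtain ⟨d, hd⟩ : ∃ d : Fin (2 * t) → ZMod 2, d ≠ 0 := by
    refine ⟨fun _ => 1, ?_⟩
    intro h
    have := congrFun h ⟨0, by omega⟩
    simp at this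
  have hG : (Fintype.card (Fin (2 * t) → ZMod 2) : ℝ) = q ^ 2 := by
    rw [Fintype.card_fun, ZMod.card, Fintype.card_fin, hq]
    push_cast
    ring
  have h1 : ASet M γ F = univ.filter (fun p => M.lab d p ∈
      univ.filter (fun μ : Lab ι => colmap γ (fun i => pl1 (μ i)) ∈ F)) := by
    ext p
    simp only [ASet, Finset.mem_filter, Finset.mem_univ, true_and]
    rw [← lab_1 M γ d p.1 p.2]
  -- the number of label vectors
  have hcount : (univ.filter (fun μ : Lab ι => colmap γ (fun i => pl1 (μ i)) ∈ F)).card =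
      F.card * 16 ^ K := by
    rw [hK, ← card_pl1_mem F]
    apply Finset.card_bij (fun μ _ => colmap γ μ)
    · intro μ hμ
      simp only [Finset.mem_filter, Finset.mem_univ, true_and] at hμ ⊢
      rw [← col_pl1]; exact hμ
    · intro μ _ ν _ h
      rw [← colmap_symm γ μ, h, colmap_symm]
    · intro ν hν
      refine ⟨colmap γ.symm ν, ?_, colmap_symm' γ ν⟩
      simp only [Finset.mem_filter, Finset.mem_univ, true_and] at hν ⊢
      rw [col_pl1, colmap_symm']; exact hν
  have hFcard : (F.card : ℝ) ≤ 16 ^ K := by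
    have h := Finset.card_le_univ F
    rw [Fintype.card_fun, Fintype.card_fun, ZMod.card, Fintype.card_fin, ← hK] at h
    have h' : (F.card : ℝ) ≤ (((2 ^ 4) ^ K : ℕ) : ℝ) := by exact_mod_cast h
    refine h'.trans (le_of_eq ?_)
    push_cast; norm_num
  rw [h1, card_lab_mem]
  push_cast
  have h2 : ∀ μ ∈ univ.filter (fun μ : Lab ι => colmap γ (fun i => pl1 (μ i)) ∈ F),
      q ^ 4 / (256 : ℝ) ^ K - q ^ 3 ≤
        ((univ.filter (fun p : (Fin (2 * t) → ZMod 2) × (Fin (2 * t) → ZMod 2) =>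
          M.lab d p = μ)).card : ℝ) := by
    intro μ _
    have h3 := M.equi d hd q hq0 hG μ
    rw [card_Lab] at h3
    push_cast at h3
    have := (abs_le.mp h3).1
    linarith
  refine le_trans ?_ (Finset.sum_le_sum h2)
  rw [Finset.sum_const, hcount, nsmul_eq_mul]
  push_cast
  have h4 : (256 : ℝ) ^ K = 16 ^ K * 16 ^ K := by
    rw [← mul_pow]; norm_num
  have h5 : (0 : ℝ) < 16 ^ K := by positivity
  have h6 : (F.card : ℝ) * 16 ^ K * (q ^ 4 / 256 ^ K - q ^ 3) =
      (F.card : ℝ) / 16 ^ K * q ^ 4 - (F.card : ℝ) * 16 ^ K * q ^ 3 := by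
    rw [h4]; field_simp
  rw [h6]
  have h7 : (F.card : ℝ) * 16 ^ K * q ^ 3 ≤ 256 ^ K * q ^ 3 := by
    apply mul_le_mul_of_nonneg_right _ (by positivity)
    rw [h4]
    exact mul_le_mul_of_nonneg_right hFcard h5.le
  linarith

end Pool.Agent.H37.SB
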