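import Pool.Agent.H36Sq.Gen

/-!
# Barrier for the popular difference exponent of squares: definitions

Vectors of bits are functions `ι → ZMod 2`. `AG(ι, 4)` is coded by pairs `(x, y)` of such vectors,
`(x, y)` standing for `x + y ω` with `ω ^ 2 = ω + 1`.
-/

namespace Pool.Agent.H37.SB

open Finset Pool.Agent.H36Sq

/-- `S` contains no square `(x, y), (x, y + d), (x + d, y), (x + d, y + d)` with `d ≠ 0`. -/
def SqFree {ι : Type} (S : Finset ((ι → ZMod 2) × (ι → ZMod 2))) : Prop :=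
  ∀ x y d : ι → ZMod 2, d ≠ 0 →
    ¬ ((x, y) ∈ S ∧ (x, y + d) ∈ S ∧ (x + d, y) ∈ S ∧ (x + d, y + d) ∈ S)

/-- `S` contains no full line of `AG(ι, 4)`: with `p = (x, y)` and `D = (u, v)` the line is
`p, p + D, p + ω D, p + ω ^ 2 D`. -/
def LnFree {ι : Type} (S : Finset ((ι → ZMod 2) × (ι → ZMod 2))) : Prop :=
  ∀ x y u v : ι → ZMod 2, (u ≠ 0 ∨ v ≠ 0) →
    ¬ ((x, y) ∈ S ∧ (x + u, y + v) ∈ S ∧ (x + v, y + (u + v)) ∈ S ∧ (x + (u + v), y + u) ∈ S)

/-- A point of the label model: `p i = ![q(x) i, q(y) i, q(x+y) i, m(x,y) i]`. -/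
abbrev P4 (ι : Type) := ι → Fin 4 → ZMod 2

/-- The labels of the point `(x, y)`, one coordinate, from the eight labels (see `Form.lab`). -/
def pl1 (u : Fin 8 → ZMod 2) : Fin 4 → ZMod 2 := ![u 4, u 5, u 4 + u 5 + u 6, u 7]

/-- The labels of the point `(x + d, y)`, one coordinate; `s` is the coordinate of `q(d)`. -/
def pl2 (s : ZMod 2) (u : Fin 8 → ZMod 2) : Fin 4 → ZMod 2 :=
  ![u 4 + s + u 0 + u 1, u 5, u 4 + u 5 + u 6 + s + u 0 + u 1 + u 2 + u 3, u 7 + u 2]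

/-- The labels of the point `(x, y + d)`, one coordinate. -/
def pl3 (s : ZMod 2) (u : Fin 8 → ZMod 2) : Fin 4 → ZMod 2 :=
  ![u 4, u 5 + s + u 2 + u 3, u 4 + u 5 + u 6 + s + u 0 + u 1 + u 2 + u 3, u 7 + u 0]

/-- The labels of the point `(x + d, y + d)`, one coordinate. -/
def pl4 (s : ZMod 2) (u : Fin 8 → ZMod 2) : Fin 4 → ZMod 2 :=
  ![u 4 + s + u 0 + u 1, u 5 + s + u 2 + u 3, u 4 + u 5 + u 6, u 7 + u 0 + u 2 + s]

/-- The number of label vectors of squares with `q(d) = s` all of whose points lie in `F`. -/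
def Nsol {ι : Type} [Fintype ι] [DecidableEq ι] (F : Finset (P4 ι)) (s : ι → ZMod 2) : ℕ :=
  (univ.filter (fun μ : Lab ι => (fun i => pl1 (μ i)) ∈ F ∧ (fun i => pl2 (s i) (μ i)) ∈ F ∧
    (fun i => pl3 (s i) (μ i)) ∈ F ∧ (fun i => pl4 (s i) (μ i)) ∈ F)).card

/-- The labels of a point of `G × G`, multiplied by an automorphism `γ` of the label group. -/
def labPt {G ι : Type} [AddCommGroup G] [Fintype ι] (M : Form G ι)
    (γ : (ι → ZMod 2) ≃+ (ι → ZMod 2)) (p : G × G) : P4 ι := fun i =>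
  ![γ (M.m p.1 p.1) i, γ (M.m p.2 p.2) i, γ (M.m (p.1 + p.2) (p.1 + p.2)) i, γ (M.m p.1 p.2) i]

/-- The points of `G × G` whose labels, multiplied by `γ`, lie in `F`. -/
def ASet {t : ℕ} {ι : Type} [Fintype ι] [DecidableEq ι] (M : Form (Fin (2 * t) → ZMod 2) ι)
    (γ : (ι → ZMod 2) ≃+ (ι → ZMod 2)) (F : Finset (P4 ι)) :
    Finset ((Fin (2 * t) → ZMod 2) × (Fin (2 * t) → ZMod 2)) :=
  univ.filter (fun p => labPt M γ p ∈ F)

/-- First block: `m` is the majority of the three bits, and the `AG(ι, 4)` label lies in `W`. -/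
def blkA {ι : Type} [Fintype ι] [DecidableEq ι] (W : Finset ((ι → ZMod 2) × (ι → ZMod 2))) :
    Finset (P4 ι) :=
  univ.filter (fun p => (∀ i, p i 3 = p i 0 * p i 1 + p i 1 * p i 2 + p i 2 * p i 0) ∧
    ((fun i => p i 0 + p i 2), (fun i => p i 1 + p i 2)) ∈ W)

/-- Second block: the `AG(ι, 4)` label lies in `W`. -/
def blkB {ι : Type} [Fintype ι] [DecidableEq ι] (W : Finset ((ι → ZMod 2) × (ι → ZMod 2))) :
    Finset (P4 ι) :=
  univ.filter (fun p => ((fun i => p i 0 + p i 2), (fun i => p i 1 + p i 2)) ∈ W)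

/-- Second block, other version: no coordinate with three equal bits. -/
def blkN (ι : Type) [Fintype ι] [DecidableEq ι] : Finset (P4 ι) :=
  univ.filter (fun p => ∀ i, ¬ (p i 0 = p i 1 ∧ p i 1 = p i 2))

/-- The product of two sets of points. -/
def prodF {ι κ : Type} [Fintype ι] [DecidableEq ι] [Fintype κ] [DecidableEq κ]
    (F₁ : Finset (P4 ι)) (F₂ : Finset (P4 κ)) : Finset (P4 (ι ⊕ κ)) :=
  univ.filter (fun p => (fun i => p (Sum.inl i)) ∈ F₁ ∧ (fun i => p (Sum.inr i)) ∈ F₂)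

/-- The `n`-fold power of a set of pairs of vectors. -/
def powW {ι : Type} [Fintype ι] [DecidableEq ι] (n : ℕ)
    (W : Finset ((ι → ZMod 2) × (ι → ZMod 2))) :
    Finset ((Fin n × ι → ZMod 2) × (Fin n × ι → ZMod 2)) :=
  univ.filter (fun p => ∀ j, ((fun a => p.1 (j, a)), (fun a => p.2 (j, a))) ∈ W)

/-- A subset of the affine space of a field without full lines. -/
def LineFree {𝔽 : Type} [Field 𝔽] {k : ℕ} (L : Finset (Fin k → 𝔽)) : Prop :=
  ∀ p D : Fin k → 𝔽, D ≠ 0 → ∃ t : 𝔽, p + t • D ∉ L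

end Pool.Agent.H37.SB
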