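import Pool.Agent.H37.SB.Targets

/-! FINL: the first half of the theorem. -/

namespace Pool.Agent.H37.SB

open Finset Pool.Agent.H36Sq

theorem two_pow_le_four_rpow (k : ℕ) (e : ℝ) (he : e ≤ 1 / 2) :
    (2 : ℝ) ^ k ≤ (4 : ℝ) ^ ((1 - e) * k) := by
  have h4 : (4 : ℝ) = (2 : ℝ) ^ (2 : ℝ) := by norm_num
  rw [h4, ← Real.rpow_mul (by norm_num), ← Real.rpow_natCast]
  apply Real.rpow_le_rpow_of_exponent_le (by norm_num)
  have : (0 : ℝ) ≤ k := Nat.cast_nonneg k
  nlinarith

theorem pf_FINL (h0 : T_GE) (h1 : T_INL) (h2 : T_NUM) (h3 : T_F4) : T_FINL := by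
  intro c hc hc6 𝔽 _ _ hF k L hL
  have hc5 := h0 c hc
  obtain ⟨W, hW, hWc⟩ := h3 𝔽 hF k L hL
  rw [← hWc]
  have hcm : 0 < c - 1 := by linarith
  have hpos : 0 < 6 * (c - 1) := by linarith
  have he : (6 - c) / (6 * (c - 1)) ≤ 1 / 2 := by
    rw [div_le_iff₀ hpos]; linarith
  rcases Nat.eq_zero_or_pos k with hk | hk
  · subst hk
    have : W.card ≤ 1 := by
      refine (Finset.card_le_univ W).trans ?_
      rw [Fintype.card_prod, Fintype.card_fun, Fintype.card_fin]
      norm_num
    have : (W.card : ℝ) ≤ 1 := by exact_mod_cast this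
    simpa using this
  · rcases Nat.lt_or_ge W.card (2 ^ k) with hlt | hge
    · have : (W.card : ℝ) ≤ 2 ^ k := by exact_mod_cast hlt.le
      exact this.trans (two_pow_le_four_rpow k _ he)
    · have : NeZero k := ⟨by omega⟩
      have h := h1 c hc (Fin k) W hW (by rw [Fintype.card_fin]; exact hge)
      rw [Fintype.card_fin] at h
      have hWp : 0 < W.card := lt_of_lt_of_le (by positivity) hge
      have hWr : (0 : ℝ) < W.card := by exact_mod_cast hWp
      have hn := h2 ((W.card : ℝ) / 4 ^ k) c 6 2 12 k (by positivity) (by linarith) (by norm_num) h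
      rw [div_le_iff₀ (by positivity)] at hn
      refine hn.trans (le_of_eq ?_)
      have h4 : (4 : ℝ) = (2 : ℝ) ^ (2 : ℝ) := by norm_num
      have e1 : (4 : ℝ) ^ k = (2 : ℝ) ^ (2 * (k : ℝ)) := by
        rw [← Real.rpow_natCast 4 k, h4, ← Real.rpow_mul (by norm_num)]
      rw [e1, ← Real.rpow_add (by norm_num), h4, ← Real.rpow_mul (by norm_num)]
      congr 1
      push_cast
      field_simp
      ring

end Pool.Agent.H37.SB
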