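import Pool.Agent.H37.SB.Targets

/-! INS: the inequality for square free sets. -/

namespace Pool.Agent.H37.SB

open Finset Pool.Agent.H36Sq

set_option maxRecDepth 8000 in
theorem pf_INS (h0 : T_GE) (h1 : T_MAIN) (h2 : T_PRD) (h3 : T_BA) (h4 : T_BN) (h5 : T_POW)
    (h6 : T_LIM) : T_INS := by
  intro c hc ι _ _ _ W hW hWK
  classical
  set K : ℕ := Fintype.card ι with hK
  have hc5 : 5 ≤ c := h0 c hc
  have hWpos : 0 < W.card := lt_of_lt_of_le (by positivity) hWK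
  have hWr : (0 : ℝ) < (W.card : ℝ) := by exact_mod_cast hWpos
  obtain ⟨l, hl⟩ : ∃ l : ℝ, l = (W.card : ℝ) / 4 ^ K := ⟨_, rfl⟩
  rw [← hl]
  have hl0 : 0 < l := by rw [hl]; positivity
  have hWl : (W.card : ℝ) = l * 4 ^ K := by rw [hl]; field_simp
  clear hl
  obtain ⟨u, hu⟩ : ∃ u : ℝ, u = 3 ^ 12 / 2 ^ 19 := ⟨_, rfl⟩
  have hu1 : 1 ≤ u := by rw [hu]; norm_num
  have hu0 : 0 < u := by linarith
  obtain ⟨κ, hκ, hmain⟩ := h1 c hc
  have key : ∀ n : ℕ, 1 ≤ n → κ * ((l ^ 26 * (u / 2 ^ 12) ^ K) ^ n) ^ c ≤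
      (l ^ 26 * (u ^ 2 / 2 ^ 64) ^ K) ^ n := by
    intro n hn
    have : NeZero (7 * n) := ⟨by omega⟩
    have hne : Nonempty (Fin (7 * n) × ι) := inferInstance
    have hne2 : Nonempty ((Fin (7 * n) × ι) ⊕ (Fin (12 * n) × ι)) := inferInstance
    obtain ⟨hRc, hRs, -, -⟩ := h5 ι (19 * n) W
    obtain ⟨hAc, hAs, -, -⟩ := h5 ι (7 * n) W
    obtain ⟨bA, bA2⟩ := h3 (Fin (7 * n) × ι) (powW (7 * n) W)
    obtain ⟨bAz, bA0⟩ := bA2 (hAs hW)
    obtain ⟨bN, bN0, bNs⟩ := h4 (Fin (12 * n) × ι)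
    obtain ⟨pc, p0, ps⟩ := h2 (Fin (7 * n) × ι) (Fin (12 * n) × ι)
      (blkA (powW (7 * n) W)) (blkN (Fin (12 * n) × ι))
    have c7 : Fintype.card (Fin (7 * n) × ι) = 7 * n * K := by
      rw [Fintype.card_prod, Fintype.card_fin]
    have c12 : Fintype.card (Fin (12 * n) × ι) = 12 * n * K := by
      rw [Fintype.card_prod, Fintype.card_fin]
    have c19 : Fintype.card (Fin (19 * n) × ι) = 19 * n * K := by
      rw [Fintype.card_prod, Fintype.card_fin]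
    have cs : Fintype.card ((Fin (7 * n) × ι) ⊕ (Fin (12 * n) × ι)) = 19 * n * K := by
      rw [Fintype.card_sum, c7, c12]; ring
    rw [c7] at bA bA0
    rw [c12] at bN bN0 bNs
    rw [hAc] at bA bA0
    have bAsum : ∑ s, Nsol (blkA (powW (7 * n) W)) s ≤ 2 ^ (7 * n * K) * W.card ^ (7 * n) := by
      rw [Finset.sum_eq_single 0]
      · exact bA0
      · intro s _ hs; exact bAz s hs
      · intro h; exact absurd (Finset.mem_univ _) h
    set B : ℝ := (l ^ 7 * (u ^ 2 / 2 ^ 64) ^ K) ^ n with hB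
    have hB0 : 0 < B := by rw [hB]; positivity
    -- the numbers
    have hW7 : (W.card : ℝ) ^ (7 * n) = (l ^ 7) ^ n * ((4 ^ 7) ^ K) ^ n := by
      rw [hWl, mul_pow, ← pow_mul, ← pow_mul, ← pow_mul, ← pow_mul]
      congr 2; ring
    have hW19 : (W.card : ℝ) ^ (19 * n) = (l ^ 19) ^ n * ((4 ^ 19) ^ K) ^ n := by
      rw [hWl, mul_pow, ← pow_mul, ← pow_mul, ← pow_mul, ← pow_mul]
      congr 2; ring
    have pw : ∀ (a : ℝ) (m : ℕ), a ^ (m * n * K) = ((a ^ m) ^ K) ^ n := by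
      intro a m
      rw [← pow_mul, ← pow_mul]
      congr 1; ring
    have hF : (((prodF (blkA (powW (7 * n) W)) (blkN (Fin (12 * n) × ι))).card : ℕ) : ℝ) /
        16 ^ Fintype.card ((Fin (7 * n) × ι) ⊕ (Fin (12 * n) × ι)) =
        (l ^ 7 * (u / 2 ^ 12) ^ K) ^ n := by
      rw [pc, bA, bN, cs]
      push_cast
      rw [hW7, pw, pw, pw, div_eq_iff (by positivity), hu, ← mul_pow, ← mul_pow, ← mul_pow,
        ← mul_pow]
      congr 1
      rw [mul_assoc, mul_assoc, ← mul_pow, mul_comm ((2 ^ 7 : ℝ) ^ K), mul_assoc, mul_assoc,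
        ← mul_pow, ← mul_pow]
      congr 2
      norm_num
    have hR : ((powW (19 * n) W).card : ℝ) / 4 ^ Fintype.card (Fin (19 * n) × ι) = (l ^ 19) ^ n := by
      rw [hRc, c19]
      push_cast
      rw [hW19, pw, mul_div_assoc, div_self (by positivity), mul_one]
    have hFne : (prodF (blkA (powW (7 * n) W)) (blkN (Fin (12 * n) × ι))).Nonempty := by
      rw [← Finset.card_pos, pc, bA, bN]
      positivity
    have hRK : 2 ^ Fintype.card ((Fin (7 * n) × ι) ⊕ (Fin (12 * n) × ι)) ≤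
        (powW (19 * n) W).card := by
      rw [cs, hRc]
      calc 2 ^ (19 * n * K) = (2 ^ K) ^ (19 * n) := by rw [← pow_mul]; congr 1; ring
        _ ≤ W.card ^ (19 * n) := Nat.pow_le_pow_left hWK _
    have hN0 : (Nsol (prodF (blkA (powW (7 * n) W)) (blkN (Fin (12 * n) × ι))) 0 : ℝ) ≤
        B * 256 ^ Fintype.card ((Fin (7 * n) × ι) ⊕ (Fin (12 * n) × ι)) := by
      rw [p0, bN0, cs]
      push_cast
      have e1 : (Nsol (blkA (powW (7 * n) W)) 0 : ℝ) ≤ 2 ^ (7 * n * K) * (W.card : ℝ) ^ (7 * n) := by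
        exact_mod_cast bA0
      refine (mul_le_mul_of_nonneg_right e1 (by positivity)).trans ?_
      rw [hW7, pw, pw, pw, hB, hu, ← mul_pow, ← mul_pow, ← mul_pow, ← mul_pow]
      apply pow_le_pow_left₀ (by positivity)
      have e2 : (2 ^ 7 : ℝ) ^ K * (l ^ 7 * (4 ^ 7) ^ K) * (48 ^ 12) ^ K =
          l ^ 7 * (2 ^ 7 * 4 ^ 7 * 48 ^ 12) ^ K := by
        rw [mul_pow, mul_pow]; ring
      have e3 : l ^ 7 * ((3 ^ 12 / 2 ^ 19) ^ 2 / 2 ^ 64) ^ K * (256 ^ 19) ^ K =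
          l ^ 7 * ((3 ^ 12 / 2 ^ 19) ^ 2 / 2 ^ 64 * 256 ^ 19) ^ K := by
        rw [mul_pow]; ring
      rw [e2, e3]
      apply mul_le_mul_of_nonneg_left _ (by positivity)
      apply pow_le_pow_left₀ (by positivity)
      norm_num
    have hNs : (∑ s, (Nsol (prodF (blkA (powW (7 * n) W)) (blkN (Fin (12 * n) × ι))) s : ℝ)) ≤
        B * 512 ^ Fintype.card ((Fin (7 * n) × ι) ⊕ (Fin (12 * n) × ι)) := by
      have e0 : (∑ s, (Nsol (prodF (blkA (powW (7 * n) W)) (blkN (Fin (12 * n) × ι))) s : ℝ)) ≤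
          2 ^ (7 * n * K) * (W.card : ℝ) ^ (7 * n) * 144 ^ (12 * n * K) := by
        have : ∑ s, Nsol (prodF (blkA (powW (7 * n) W)) (blkN (Fin (12 * n) × ι))) s ≤
            2 ^ (7 * n * K) * W.card ^ (7 * n) * 144 ^ (12 * n * K) := by
          rw [ps, bNs]
          exact Nat.mul_le_mul_right _ bAsum
        exact_mod_cast this
      refine e0.trans ?_
      rw [cs, hW7, pw, pw, pw, hB, hu, ← mul_pow, ← mul_pow, ← mul_pow, ← mul_pow]
      apply pow_le_pow_left₀ (by positivity)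
      have e2 : (2 ^ 7 : ℝ) ^ K * (l ^ 7 * (4 ^ 7) ^ K) * (144 ^ 12) ^ K =
          l ^ 7 * (2 ^ 7 * 4 ^ 7 * 144 ^ 12) ^ K := by
        rw [mul_pow, mul_pow]; ring
      have e3 : l ^ 7 * ((3 ^ 12 / 2 ^ 19) ^ 2 / 2 ^ 64) ^ K * (512 ^ 19) ^ K =
          l ^ 7 * ((3 ^ 12 / 2 ^ 19) ^ 2 / 2 ^ 64 * 512 ^ 19) ^ K := by
        rw [mul_pow]; ring
      rw [e2, e3]
      apply mul_le_mul_of_nonneg_left _ (by positivity)
      apply pow_le_pow_left₀ (by positivity)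
      norm_num
    have h := hmain (Fin (19 * n) × ι) ((Fin (7 * n) × ι) ⊕ (Fin (12 * n) × ι))
      (powW (19 * n) W) (hRs hW) hRK _ hFne B hB0 hN0 hNs
    rw [hF, hR] at h
    have e4 : (l ^ 19) ^ n * (l ^ 7 * (u / 2 ^ 12) ^ K) ^ n = (l ^ 26 * (u / 2 ^ 12) ^ K) ^ n := by
      rw [← mul_pow]; congr 1; ring
    have e5 : (l ^ 19) ^ n * B = (l ^ 26 * (u ^ 2 / 2 ^ 64) ^ K) ^ n := by
      rw [hB, ← mul_pow]; congr 1; ring
    rw [e4, e5] at h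
    exact h
  have hx : 0 < l ^ 26 * (u / 2 ^ 12) ^ K := by positivity
  have hy : 0 < l ^ 26 * (u ^ 2 / 2 ^ 64) ^ K := by positivity
  have hlim := h6 κ _ _ c hκ hx hy key
  -- remove `u`
  have ex : l ^ 26 * (u / 2 ^ 12) ^ K = l ^ 26 * ((1 / 2 : ℝ) ^ 12) ^ K * u ^ K := by
    have e : u / 2 ^ 12 = (1 / 2 : ℝ) ^ 12 * u := by rw [one_div_pow]; ring
    rw [e, mul_pow ((1 / 2 : ℝ) ^ 12) u K]; ring
  have ey : l ^ 26 * (u ^ 2 / 2 ^ 64) ^ K = l ^ 26 * ((1 / 2 : ℝ) ^ 64) ^ K * (u ^ K) ^ 2 := by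
    have e : u ^ 2 / 2 ^ 64 = (1 / 2 : ℝ) ^ 64 * u ^ 2 := by rw [one_div_pow]; ring
    have e' : (u ^ 2) ^ K = (u ^ K) ^ 2 := by rw [← pow_mul, ← pow_mul, mul_comm]
    rw [e, mul_pow ((1 / 2 : ℝ) ^ 64) (u ^ 2) K, e']; ring
  rw [ex, ey, Real.mul_rpow (by positivity) (by positivity)] at hlim
  have huK : 1 ≤ u ^ K := one_le_pow₀ hu1
  have huc : (u ^ K) ^ 2 ≤ (u ^ K) ^ c := by
    rw [← Real.rpow_natCast (u ^ K) 2]
    apply Real.rpow_le_rpow_of_exponent_le huK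
    push_cast; linarith
  have hpos : 0 < (u ^ K) ^ 2 := by positivity
  have hz : 0 < (l ^ 26 * ((1 / 2 : ℝ) ^ 12) ^ K) ^ c := by positivity
  have : (l ^ 26 * ((1 / 2 : ℝ) ^ 12) ^ K) ^ c * (u ^ K) ^ 2 ≤
      l ^ 26 * ((1 / 2 : ℝ) ^ 64) ^ K * (u ^ K) ^ 2 :=
    (mul_le_mul_of_nonneg_left huc hz.le).trans hlim
  exact le_of_mul_le_mul_right this hpos

end Pool.Agent.H37.SB
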