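import Pool.Agent.H37.SB.Targets

/-! MAIN: the transfer inequality. -/

namespace Pool.Agent.H37.SB

open Finset Pool.Agent.H36Sq

theorem sum_ge_aux {α : Type} (R : Finset α) (f : α → ℕ) (b : ℝ) (h : ∀ r ∈ R, b ≤ (f r : ℝ)) :
    (R.card : ℝ) * b ≤ ((∑ r ∈ R, f r : ℕ) : ℝ) := by
  push_cast
  have := Finset.card_nsmul_le_sum R (fun r => (f r : ℝ)) b h
  rwa [nsmul_eq_mul] at this

theorem pf_MAIN (h1 : T_AVG) (h2 : T_CL) (h3 : T_CU) (h4 : T_LIFT) : T_MAIN := by
  intro c hc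
  obtain ⟨κ, hκ, hval⟩ := hc
  refine ⟨κ * (1 / 2 : ℝ) ^ c / 5, by positivity, ?_⟩
  intro η ι _ _ _ _ _ R hR hRK F hF B hB hN0 hNs
  classical
  set K : ℕ := Fintype.card ι with hK
  set N : ℕ := Fintype.card η with hN
  have hRpos : 0 < R.card := lt_of_lt_of_le (by positivity) hRK
  have hRr : (0 : ℝ) < (R.card : ℝ) := by exact_mod_cast hRpos
  set ρ : ℝ := (R.card : ℝ) / 4 ^ N with hρ
  set aF : ℝ := (F.card : ℝ) / 16 ^ K with haF
  have hρ0 : 0 < ρ := by rw [hρ]; positivity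
  have hFr : (0 : ℝ) < (F.card : ℝ) := by exact_mod_cast Finset.card_pos.mpr hF
  have haF0 : 0 < aF := by rw [haF]; positivity
  have hρ1 : ρ ≤ 1 := by
    rw [hρ, div_le_one (by positivity)]
    have h := Finset.card_le_univ R
    rw [Fintype.card_prod, Fintype.card_fun, ZMod.card, ← hN] at h
    have h' : (R.card : ℝ) ≤ ((2 ^ N * 2 ^ N : ℕ) : ℝ) := by exact_mod_cast h
    refine h'.trans (le_of_eq ?_)
    push_cast
    rw [← mul_pow]; norm_num
  have haF1 : aF ≤ 1 := by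
    rw [haF, div_le_one (by positivity)]
    have h := Finset.card_le_univ F
    rw [Fintype.card_fun, Fintype.card_fun, ZMod.card, Fintype.card_fin, ← hK] at h
    have h' : (F.card : ℝ) ≤ (((2 ^ 4) ^ K : ℕ) : ℝ) := by exact_mod_cast h
    refine h'.trans (le_of_eq ?_)
    push_cast; norm_num
  set α : ℝ := ρ * aF * (1 / 2) with hα
  have hα0 : 0 < α := by positivity
  have hα1 : α < 1 := by
    have : ρ * aF ≤ 1 := by
      calc ρ * aF ≤ 1 * 1 := mul_le_mul hρ1 haF1 haF0.le (by norm_num)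
        _ = 1 := by ring
    rw [hα]; linarith
  obtain ⟨n₀, hn₀⟩ := hval α hα0 hα1
  obtain ⟨t0, ht0⟩ := pow_unbounded_of_one_lt (2 * 256 ^ K / aF + 256 ^ K / B)
    (by norm_num : (1 : ℝ) < 2)
  set t : ℕ := 2 * (t0 + n₀ + K) + 1 with ht
  have htodd : Odd t := ⟨t0 + n₀ + K, by omega⟩
  obtain ⟨M⟩ := exists_form ι t htodd (by omega)
  set q : ℝ := (2 : ℝ) ^ t with hq
  have hq0 : 0 < q := by positivity
  have hqR : 2 * 256 ^ K / aF + 256 ^ K / B ≤ q := by
    refine ht0.le.trans ?_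
    rw [hq]
    apply pow_le_pow_right₀ (by norm_num)
    omega
  have hq1 : 2 * 256 ^ K ≤ aF * q := by
    have h : 2 * 256 ^ K / aF ≤ q := by
      refine le_trans ?_ hqR
      have : (0 : ℝ) ≤ 256 ^ K / B := by positivity
      linarith
    rw [div_le_iff₀ haF0] at h
    linarith
  have hq2 : 256 ^ K ≤ B * q := by
    have h : 256 ^ K / B ≤ q := by
      refine le_trans ?_ hqR
      have : (0 : ℝ) ≤ 2 * 256 ^ K / aF := by positivity
      linarith
    rw [div_le_iff₀ hB] at h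
    linarith
  obtain ⟨γ, hγ⟩ := h1 ((η → ZMod 2) × (η → ZMod 2)) ι R hRK
  obtain ⟨S, hScard, hS⟩ := h4 η t R hR (fun r => ASet M (γ r) F)
  have hNN : ((2 : ℝ) ^ (N + 2 * t)) ^ 2 = 4 ^ N * q ^ 4 := by
    rw [hq, ← pow_mul, ← pow_mul, add_mul, pow_add]
    congr 1
    · rw [mul_comm, pow_mul]; norm_num
    · congr 1; ring
  -- the number of points
  have hcard : α * ((2 : ℝ) ^ (N + 2 * t)) ^ 2 ≤ (S.card : ℝ) := by
    rw [hScard, hNN]
    have hlow : ∀ r ∈ R, aF * q ^ 4 - 256 ^ K * q ^ 3 ≤ ((ASet M (γ r) F).card : ℝ) :=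
      fun r _ => h2 t ι M (γ r) F (by omega)
    refine le_trans ?_ (sum_ge_aux R _ _ hlow)
    have e1 : 256 ^ K * q ^ 3 ≤ aF * q ^ 4 / 2 := by
      have := mul_le_mul_of_nonneg_right hq1 (by positivity : (0 : ℝ) ≤ q ^ 3)
      nlinarith [this]
    have e2 : α * (4 ^ N * q ^ 4) = (R.card : ℝ) * (aF * q ^ 4 / 2) := by
      rw [hα, hρ]; field_simp
    rw [e2]
    apply mul_le_mul_of_nonneg_left _ hRr.le
    linarith
  obtain ⟨d, hd, hdQ⟩ := hn₀ (N + 2 * t) (by omega) (by omega) S hcard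
  have hlhs : 0 < κ * α ^ c * ((2 : ℝ) ^ (N + 2 * t)) ^ 2 := by positivity
  have hup : (squareCount S d : ℝ) ≤ 5 * (R.card : ℝ) * B * q ^ 4 := by
    rcases hS d hd with h0 | ⟨e, he, hsum⟩
    · rw [h0]; push_cast; positivity
    · rw [hsum]
      push_cast
      have hb : ∀ r ∈ R, (squareCount (ASet M (γ r) F) e : ℝ) ≤
          (Nsol F (γ r (M.m e e)) : ℝ) / 256 ^ K * q ^ 4 + 256 ^ K * q ^ 3 :=
        fun r _ => h3 t ι M (γ r) F e he
      refine (Finset.sum_le_sum hb).trans ?_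
      rw [Finset.sum_add_distrib, Finset.sum_const, nsmul_eq_mul, ← Finset.sum_mul,
        ← Finset.sum_div]
      have herr : (R.card : ℝ) * (256 ^ K * q ^ 3) ≤ (R.card : ℝ) * (B * q ^ 4) := by
        apply mul_le_mul_of_nonneg_left _ hRr.le
        have := mul_le_mul_of_nonneg_right hq2 (by positivity : (0 : ℝ) ≤ q ^ 3)
        calc 256 ^ K * q ^ 3 ≤ B * q * q ^ 3 := this
          _ = B * q ^ 4 := by ring
      have hmain : (∑ r ∈ R, (Nsol F (γ r (M.m e e)) : ℝ)) / 256 ^ K ≤ 4 * (R.card : ℝ) * B := by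
        rw [div_le_iff₀ (by positivity)]
        by_cases hs : M.m e e = 0
        · have : ∀ r ∈ R, (Nsol F (γ r (M.m e e)) : ℝ) ≤ B * 256 ^ K := by
            intro r _
            rw [hs, map_zero]; exact hN0
          refine (Finset.sum_le_sum this).trans ?_
          rw [Finset.sum_const, nsmul_eq_mul]
          have hp : 0 ≤ (R.card : ℝ) * (B * 256 ^ K) := by positivity
          linarith
        · have h := hγ (fun s => Nsol F s) (M.m e e) hs
          have h' : (2 : ℝ) ^ K * ∑ r ∈ R, (Nsol F (γ r (M.m e e)) : ℝ) ≤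
              4 * (R.card : ℝ) * ∑ s', (Nsol F s' : ℝ) := by
            exact_mod_cast h
          have h'' : (2 : ℝ) ^ K * ∑ r ∈ R, (Nsol F (γ r (M.m e e)) : ℝ) ≤
              2 ^ K * (4 * (R.card : ℝ) * B * 256 ^ K) := by
            refine h'.trans ?_
            have e5 : (512 : ℝ) ^ K = 2 ^ K * 256 ^ K := by rw [← mul_pow]; norm_num
            calc 4 * (R.card : ℝ) * ∑ s', (Nsol F s' : ℝ)
                ≤ 4 * (R.card : ℝ) * (B * 512 ^ K) :=
                  mul_le_mul_of_nonneg_left hNs (by positivity)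
              _ = _ := by rw [e5]; ring
          exact le_of_mul_le_mul_left h'' (by positivity)
      have := mul_le_mul_of_nonneg_right hmain (by positivity : (0 : ℝ) ≤ q ^ 4)
      linarith
  have hfin : κ * α ^ c * (4 ^ N * q ^ 4) ≤ 5 * (R.card : ℝ) * B * q ^ 4 := by
    rw [← hNN]; exact hdQ.trans hup
  have h6 : α ^ c = (ρ * aF) ^ c * (1 / 2 : ℝ) ^ c := by
    rw [hα, Real.mul_rpow (by positivity) (by norm_num)]
  have hq4 : 0 < q ^ 4 := by positivity
  have h7 : κ * α ^ c * 4 ^ N ≤ 5 * (R.card : ℝ) * B := by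
    have : κ * α ^ c * 4 ^ N * q ^ 4 ≤ 5 * (R.card : ℝ) * B * q ^ 4 := by
      calc κ * α ^ c * 4 ^ N * q ^ 4 = κ * α ^ c * (4 ^ N * q ^ 4) := by ring
        _ ≤ _ := hfin
    exact le_of_mul_le_mul_right this hq4
  rw [h6] at h7
  have h8 : ρ * B * 4 ^ N = (R.card : ℝ) * B := by
    rw [hρ]; field_simp
  have h9 : (κ * (1 / 2 : ℝ) ^ c / 5 * (ρ * aF) ^ c) * 4 ^ N ≤ ρ * B * 4 ^ N := by
    rw [h8]; linarith
  exact le_of_mul_le_mul_right h9 (by positivity)

end Pool.Agent.H37.SB
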