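import Pool.Agent.H37.SB.Targets

/-! The fibres of the first point map. -/

namespace Pool.Agent.H37.SB

open Finset Pool.Agent.H36Sq

theorem fibre_pl1 : ∀ v : Fin 4 → ZMod 2,
    (univ.filter (fun u : Fin 8 → ZMod 2 => pl1 u = v)).card = 16 := by
  decide +kernel

theorem card_fibre_pl1 {ι : Type} [Fintype ι] [DecidableEq ι] (v : P4 ι) :
    (univ.filter (fun μ : Lab ι => (fun i => pl1 (μ i)) = v)).card = 16 ^ Fintype.card ι := by
  have h : univ.filter (fun μ : Lab ι => (fun i => pl1 (μ i)) = v) =
      Fintype.piFinset (fun i => univ.filter (fun u : Fin 8 → ZMod 2 => pl1 u = v i)) := by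
    ext μ
    simp only [Finset.mem_filter, Finset.mem_univ, true_and, Fintype.mem_piFinset]
    exact ⟨fun h i => congrFun h i, fun h => funext h⟩
  rw [h, Fintype.card_piFinset]
  simp only [fibre_pl1, Finset.prod_const, Finset.card_univ]

theorem card_pl1_mem {ι : Type} [Fintype ι] [DecidableEq ι] (F : Finset (P4 ι)) :
    (univ.filter (fun μ : Lab ι => (fun i => pl1 (μ i)) ∈ F)).card =
      F.card * 16 ^ Fintype.card ι := by
  rw [Finset.card_eq_sum_card_fiberwise (f := fun μ : Lab ι => (fun i => pl1 (μ i))) (t := F)]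
  · rw [Finset.sum_const_nat (m := 16 ^ Fintype.card ι)]
    intro v hv
    rw [← card_fibre_pl1 v]
    congr 1
    ext μ
    simp only [Finset.mem_filter, Finset.mem_univ, true_and]
    constructor
    · rintro ⟨_, h⟩; exact h
    · intro h; exact ⟨by rw [h]; exact hv, h⟩
  · intro μ hμ
    simpa using hμ

end Pool.Agent.H37.SB
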