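import Pool.Agent.H37.SB.Targets

/-! PRD: products of blocks. -/

namespace Pool.Agent.H37.SB

open Finset Pool.Agent.H36Sq

theorem nsol_prod (ι κ : Type) [Fintype ι] [DecidableEq ι] [Fintype κ] [DecidableEq κ]
    (F₁ : Finset (P4 ι)) (F₂ : Finset (P4 κ)) (s : ι ⊕ κ → ZMod 2) :
    Nsol (prodF F₁ F₂) s = Nsol F₁ (fun i => s (Sum.inl i)) * Nsol F₂ (fun i => s (Sum.inr i)) := by
  unfold Nsol
  rw [← Finset.card_product]
  apply Finset.card_bij (fun μ _ => ((fun i => μ (Sum.inl i)), (fun i => μ (Sum.inr i))))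
  · intro μ hμ
    simp only [prodF, Finset.mem_filter, Finset.mem_univ, true_and, Finset.mem_product] at hμ ⊢
    exact ⟨⟨hμ.1.1, hμ.2.1.1, hμ.2.2.1.1, hμ.2.2.2.1⟩, ⟨hμ.1.2, hμ.2.1.2, hμ.2.2.1.2, hμ.2.2.2.2⟩⟩
  · intro μ _ ν _ h
    simp only [Prod.mk.injEq] at h
    funext x
    rcases x with i | i
    · exact congrFun h.1 i
    · exact congrFun h.2 i
  · rintro ⟨μ, ν⟩ h
    simp only [Finset.mem_filter, Finset.mem_univ, true_and, Finset.mem_product] at h
    refine ⟨fun x => Sum.elim μ ν x, ?_, rfl⟩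
    simp only [prodF, Finset.mem_filter, Finset.mem_univ, true_and]
    exact ⟨⟨h.1.1, h.2.1⟩, ⟨h.1.2.1, h.2.2.1⟩, ⟨h.1.2.2.1, h.2.2.2.1⟩, ⟨h.1.2.2.2, h.2.2.2.2⟩⟩

theorem pf_PRD : T_PRD := by
  intro ι κ _ _ _ _ F₁ F₂
  refine ⟨?_, ?_, ?_⟩
  · rw [← Finset.card_product]
    apply Finset.card_bij (fun p _ => ((fun i => p (Sum.inl i)), (fun i => p (Sum.inr i))))
    · intro p hp
      simp only [prodF, Finset.mem_filter, Finset.mem_univ, true_and, Finset.mem_product] at hp ⊢
      exact hp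
    · intro μ _ ν _ h
      simp only [Prod.mk.injEq] at h
      funext x
      rcases x with i | i
      · exact congrFun h.1 i
      · exact congrFun h.2 i
    · rintro ⟨μ, ν⟩ h
      simp only [Finset.mem_product] at h
      refine ⟨fun x => Sum.elim μ ν x, ?_, rfl⟩
      simp only [prodF, Finset.mem_filter, Finset.mem_univ, true_and]
      exact h
  · exact nsol_prod ι κ F₁ F₂ 0
  · rw [Finset.sum_mul_sum, ← Finset.sum_product']
    apply Finset.sum_bij (fun s _ => ((fun i => s (Sum.inl i)), (fun i => s (Sum.inr i))))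
    · intro s _; simp
    · intro μ _ ν _ h
      simp only [Prod.mk.injEq] at h
      funext x
      rcases x with i | i
      · exact congrFun h.1 i
      · exact congrFun h.2 i
    · rintro ⟨μ, ν⟩ _
      exact ⟨fun x => Sum.elim μ ν x, Finset.mem_univ _, rfl⟩
    · intro s _
      exact nsol_prod ι κ F₁ F₂ s

end Pool.Agent.H37.SB
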