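import Pool.Agent.H37.SB.Targets

/-! LIM, NUM and GE. -/

namespace Pool.Agent.H37.SB

open Finset Pool.Agent.H36Sq

theorem pf_LIM : T_LIM := by
  intro κ x y c hκ hx hy h
  by_contra hcon
  push Not at hcon
  have hr : 1 < x ^ c / y := by rw [lt_div_iff₀ hy, one_mul]; exact hcon
  obtain ⟨m, hm⟩ := pow_unbounded_of_one_lt (1 / κ) hr
  have hm1 : 1 / κ < (x ^ c / y) ^ (m + 1) := by
    refine lt_of_lt_of_le hm ?_
    exact pow_le_pow_right₀ hr.le (by omega)
  have h1 := h (m + 1) (by omega)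
  have e : (x ^ (m + 1)) ^ c = (x ^ c) ^ (m + 1) := by
    rw [← Real.rpow_natCast (x ^ c) (m + 1), ← Real.rpow_mul hx.le, ← Real.rpow_natCast x (m + 1),
      ← Real.rpow_mul hx.le, mul_comm]
  rw [e] at h1
  rw [div_pow, div_lt_div_iff₀ hκ (by positivity)] at hm1
  linarith

theorem pf_NUM : T_NUM := by
  intro l c a b d k hl hc ha h
  have h2 : (0 : ℝ) < 2 := by norm_num
  have hL : l = (2 : ℝ) ^ (Real.logb 2 l) := (Real.rpow_logb h2 (by norm_num) hl).symm
  obtain ⟨L, hL'⟩ : ∃ L, L = Real.logb 2 l := ⟨_, rfl⟩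
  rw [← hL'] at hL
  have ea : ∀ m : ℕ, l ^ a * ((1 / 2 : ℝ) ^ m) ^ k = (2 : ℝ) ^ (a * L - m * k : ℝ) := by
    intro m
    rw [Real.rpow_sub h2, hL, ← Real.rpow_natCast ((2 : ℝ) ^ L) a, ← Real.rpow_mul h2.le,
      ← pow_mul, one_div_pow, mul_comm (a : ℝ) L]
    have : (2 : ℝ) ^ ((m : ℝ) * k) = 2 ^ (m * k) := by
      rw [← Real.rpow_natCast]; push_cast; rfl
    rw [this]; ring
  rw [ea, ea, ← Real.rpow_mul h2.le, Real.rpow_le_rpow_left_iff (by norm_num)] at h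
  rw [hL, Real.rpow_le_rpow_left_iff (by norm_num)]
  have hac : 0 < (a : ℝ) * (c - 1) := by
    have : (0 : ℝ) < a := by exact_mod_cast ha
    apply mul_pos this; linarith
  rw [div_mul_eq_mul_div, ← neg_div, le_div_iff₀ hac]
  linarith

/-- The set `{0, 1}` in `ZMod 4`. -/
def S01 : Finset (Fin 1 → ZMod 4) := univ.filter (fun v => v 0 = 0 ∨ v 0 = 1)

theorem card_S01 : S01.card = 2 := by decide +kernel

theorem card_quad_S01 : (quad S01).card = 2 := by decide +kernel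

theorem pf_GE : T_GE := by
  intro c hc
  have h := le_of_valid c hc S01 (by rw [← Finset.card_pos, card_S01]; norm_num)
    (by rw [card_S01, Fintype.card_fin]; norm_num)
  rw [card_S01, card_quad_S01, Fintype.card_fin] at h
  have e1 : ((2 : ℕ) : ℝ) / 4 ^ 1 = (2 : ℝ) ^ (-1 : ℝ) := by
    rw [Real.rpow_neg (by norm_num), Real.rpow_one]; norm_num
  have e2 : ((2 : ℕ) : ℝ) / 64 ^ 1 = (2 : ℝ) ^ (-5 : ℝ) := by
    rw [Real.rpow_neg (by norm_num)]
    norm_num
  rw [e1, e2, ← Real.rpow_mul (by norm_num), Real.rpow_le_rpow_left_iff (by norm_num)] at h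
  linarith

end Pool.Agent.H37.SB
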