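import Pool.Agent.H67.SB.AUT
import Pool.Agent.H94.SB.BAL
import Pool.Agent.H11.SB.AVG
import Pool.Agent.H47.SB.CU
import Pool.Agent.H47.SB.LIFT
import Pool.Agent.H22.SB.BA
import Pool.Agent.H22.SB.BN
import Pool.Agent.H22.SB.POW
import Pool.Agent.H22.SB.FINS
import Pool.Agent.H37.SB.CL
import Pool.Agent.H37.SB.Prd
import Pool.Agent.H37.SB.Small
import Pool.Agent.H37.SB.Main
import Pool.Agent.H37.SB.Ins

/-! The version of the barrier for square free sets (helper file, not a hand-in). -/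

namespace Pool.Agent.H37.SB

open Finset Pool.Agent.H36Sq

theorem main : T_MAIN :=
  pf_MAIN (Pool.Agent.H11.SB.pf_AVG Pool.Agent.H67.SB.pf_AUT Pool.Agent.H94.SB.pf_BAL) pf_CL
    Pool.Agent.H47.SB.pf_CU Pool.Agent.H47.SB.pf_LIFT

theorem ins : T_INS :=
  pf_INS pf_GE main pf_PRD Pool.Agent.H22.SB.pf_BA Pool.Agent.H22.SB.pf_BN
    Pool.Agent.H22.SB.pf_POW pf_LIM

/-- A valid exponent `c < 16/3` gives a power saving for square free sets. -/
theorem fins : T_FINS := Pool.Agent.H22.SB.pf_FINS pf_GE ins pf_NUM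

end Pool.Agent.H37.SB
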