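import Pool.Agent.H37.SB.Defs

/-!
# Barrier for the popular difference exponent of squares: the rows
-/

namespace Pool.Agent.H37.SB

open Finset Pool.Agent.H36Sq

/-- AUT: multiplication of the field with `2^K` elements is simply transitive. -/
def T_AUT : Prop :=
  ∀ (ι : Type) [Fintype ι] [DecidableEq ι] [Nonempty ι],
    ∃ g : Fin (2 ^ Fintype.card ι - 1) → ((ι → ZMod 2) ≃+ (ι → ZMod 2)),
      ∀ s s' : ι → ZMod 2, s ≠ 0 → s' ≠ 0 → ∃! u, g u s = s'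

/-- BAL: balanced colourings. -/
def T_BAL : Prop :=
  ∀ (α : Type) [DecidableEq α] (R : Finset α) (n : ℕ), 0 < n → n ≤ R.card →
    ∃ f : α → Fin n, ∀ u, n * (R.filter (fun a => f a = u)).card ≤ 2 * R.card

/-- AVG: averaging over the slices. -/
def T_AVG : Prop :=
  ∀ (α ι : Type) [DecidableEq α] [Fintype ι] [DecidableEq ι] [Nonempty ι] (R : Finset α),
    2 ^ Fintype.card ι ≤ R.card →
    ∃ γ : α → ((ι → ZMod 2) ≃+ (ι → ZMod 2)), ∀ (f : (ι → ZMod 2) → ℕ) (s : ι → ZMod 2), s ≠ 0 →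
      2 ^ Fintype.card ι * ∑ r ∈ R, f (γ r s) ≤ 4 * R.card * ∑ s', f s'

/-- CL: lower bound for the number of points. -/
def T_CL : Prop :=
  ∀ (t : ℕ) (ι : Type) [Fintype ι] [DecidableEq ι] (M : Form (Fin (2 * t) → ZMod 2) ι)
    (γ : (ι → ZMod 2) ≃+ (ι → ZMod 2)) (F : Finset (P4 ι)), 0 < t →
    (F.card : ℝ) / 16 ^ Fintype.card ι * ((2 : ℝ) ^ t) ^ 4 -
      256 ^ Fintype.card ι * ((2 : ℝ) ^ t) ^ 3 ≤ ((ASet M γ F).card : ℝ)

/-- CU: upper bound for the number of squares. -/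
def T_CU : Prop :=
  ∀ (t : ℕ) (ι : Type) [Fintype ι] [DecidableEq ι] (M : Form (Fin (2 * t) → ZMod 2) ι)
    (γ : (ι → ZMod 2) ≃+ (ι → ZMod 2)) (F : Finset (P4 ι)) (e : Fin (2 * t) → ZMod 2), e ≠ 0 →
    (squareCount (ASet M γ F) e : ℝ) ≤
      (Nsol F (γ (M.m e e)) : ℝ) / 256 ^ Fintype.card ι * ((2 : ℝ) ^ t) ^ 4 +
        256 ^ Fintype.card ι * ((2 : ℝ) ^ t) ^ 3

/-- LIFT: a family of sets indexed by a square free set of cosets. -/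
def T_LIFT : Prop :=
  ∀ (η : Type) [Fintype η] [DecidableEq η] (t : ℕ)
    (R : Finset ((η → ZMod 2) × (η → ZMod 2))) (_ : SqFree R)
    (A : (η → ZMod 2) × (η → ZMod 2) →
      Finset ((Fin (2 * t) → ZMod 2) × (Fin (2 * t) → ZMod 2))),
    ∃ B : Finset ((Fin (Fintype.card η + 2 * t) → ZMod 2) ×
        (Fin (Fintype.card η + 2 * t) → ZMod 2)),
      B.card = ∑ r ∈ R, (A r).card ∧
      ∀ d, d ≠ 0 → squareCount B d = 0 ∨
        ∃ e : Fin (2 * t) → ZMod 2, e ≠ 0 ∧ squareCount B d = ∑ r ∈ R, squareCount (A r) e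

/-- MAIN: the transfer inequality. -/
def T_MAIN : Prop :=
  ∀ c : ℝ, ValidExponent c → ∃ κ : ℝ, 0 < κ ∧
    ∀ (η ι : Type) [Fintype η] [DecidableEq η] [Fintype ι] [DecidableEq ι] [Nonempty ι]
      (R : Finset ((η → ZMod 2) × (η → ZMod 2))), SqFree R → 2 ^ Fintype.card ι ≤ R.card →
    ∀ F : Finset (P4 ι), F.Nonempty → ∀ B : ℝ, 0 < B →
      (Nsol F 0 : ℝ) ≤ B * 256 ^ Fintype.card ι →
      (∑ s, (Nsol F s : ℝ)) ≤ B * 512 ^ Fintype.card ι →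
      κ * (((R.card : ℝ) / 4 ^ Fintype.card η) * ((F.card : ℝ) / 16 ^ Fintype.card ι)) ^ c ≤
        ((R.card : ℝ) / 4 ^ Fintype.card η) * B

/-- GE: every valid exponent is at least five. -/
def T_GE : Prop := ∀ c : ℝ, ValidExponent c → 5 ≤ c

/-- PRD: products of blocks. -/
def T_PRD : Prop :=
  ∀ (ι κ : Type) [Fintype ι] [DecidableEq ι] [Fintype κ] [DecidableEq κ]
    (F₁ : Finset (P4 ι)) (F₂ : Finset (P4 κ)),
    (prodF F₁ F₂).card = F₁.card * F₂.card ∧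
    Nsol (prodF F₁ F₂) 0 = Nsol F₁ 0 * Nsol F₂ 0 ∧
    ∑ s, Nsol (prodF F₁ F₂) s = (∑ s, Nsol F₁ s) * ∑ s, Nsol F₂ s

/-- BA: the first block. -/
def T_BA : Prop :=
  ∀ (ι : Type) [Fintype ι] [DecidableEq ι] (W : Finset ((ι → ZMod 2) × (ι → ZMod 2))),
    (blkA W).card = 2 ^ Fintype.card ι * W.card ∧
    (SqFree W → (∀ s, s ≠ 0 → Nsol (blkA W) s = 0) ∧
      Nsol (blkA W) 0 ≤ 2 ^ Fintype.card ι * W.card)

/-- BB: the second block. -/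
def T_BB : Prop :=
  ∀ (ι : Type) [Fintype ι] [DecidableEq ι] (W : Finset ((ι → ZMod 2) × (ι → ZMod 2))),
    (blkB W).card = 4 ^ Fintype.card ι * W.card ∧
    (LnFree W → Nsol (blkB W) 0 ≤ 16 ^ Fintype.card ι * W.card) ∧
    ∑ s, Nsol (blkB W) s ≤ 128 ^ Fintype.card ι * W.card

/-- BN: the second block of the other version. -/
def T_BN : Prop :=
  ∀ (ι : Type) [Fintype ι] [DecidableEq ι],
    (blkN ι).card = 12 ^ Fintype.card ι ∧ Nsol (blkN ι) 0 = 48 ^ Fintype.card ι ∧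
    ∑ s, Nsol (blkN ι) s = 144 ^ Fintype.card ι

/-- POW: powers of square free and of line free sets. -/
def T_POW : Prop :=
  ∀ (ι : Type) [Fintype ι] [DecidableEq ι] (n : ℕ) (W : Finset ((ι → ZMod 2) × (ι → ZMod 2))),
    (powW n W).card = W.card ^ n ∧ (SqFree W → SqFree (powW n W)) ∧
    (LnFree W → LnFree (powW n W)) ∧ (LnFree W → SqFree W)

/-- LIM: the limit. -/
def T_LIM : Prop :=
  ∀ κ x y c : ℝ, 0 < κ → 0 < x → 0 < y → (∀ n : ℕ, 1 ≤ n → κ * (x ^ n) ^ c ≤ y ^ n) → x ^ c ≤ y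

/-- NUM: solving for the density. -/
def T_NUM : Prop :=
  ∀ l c : ℝ, ∀ a b d k : ℕ, 0 < l → 1 < c → 0 < a →
    (l ^ a * ((1 / 2 : ℝ) ^ b) ^ k) ^ c ≤ l ^ a * ((1 / 2 : ℝ) ^ d) ^ k →
    l ≤ (2 : ℝ) ^ (-(((d : ℝ) - b * c) / (a * (c - 1)) * k))

/-- INL: the inequality for line free sets. -/
def T_INL : Prop :=
  ∀ c : ℝ, ValidExponent c → ∀ (ι : Type) [Fintype ι] [DecidableEq ι] [Nonempty ι]
    (W : Finset ((ι → ZMod 2) × (ι → ZMod 2))), LnFree W → 2 ^ Fintype.card ι ≤ W.card →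
    (((W.card : ℝ) / 4 ^ Fintype.card ι) ^ 6 * ((1 / 2 : ℝ) ^ 2) ^ Fintype.card ι) ^ c ≤
      ((W.card : ℝ) / 4 ^ Fintype.card ι) ^ 6 * ((1 / 2 : ℝ) ^ 12) ^ Fintype.card ι

/-- INS: the inequality for square free sets. -/
def T_INS : Prop :=
  ∀ c : ℝ, ValidExponent c → ∀ (ι : Type) [Fintype ι] [DecidableEq ι] [Nonempty ι]
    (W : Finset ((ι → ZMod 2) × (ι → ZMod 2))), SqFree W → 2 ^ Fintype.card ι ≤ W.card →
    (((W.card : ℝ) / 4 ^ Fintype.card ι) ^ 26 * ((1 / 2 : ℝ) ^ 12) ^ Fintype.card ι) ^ c ≤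
      ((W.card : ℝ) / 4 ^ Fintype.card ι) ^ 26 * ((1 / 2 : ℝ) ^ 64) ^ Fintype.card ι

/-- F4: coordinates for a field with four elements. -/
def T_F4 : Prop :=
  ∀ (𝔽 : Type) [Field 𝔽] [Fintype 𝔽], Fintype.card 𝔽 = 4 → ∀ (k : ℕ) (L : Finset (Fin k → 𝔽)),
    LineFree L → ∃ W : Finset ((Fin k → ZMod 2) × (Fin k → ZMod 2)), LnFree W ∧ W.card = L.card

/-- FINL: the first half of the theorem. -/
def T_FINL : Prop :=
  ∀ c : ℝ, ValidExponent c → c < 6 → ∀ (𝔽 : Type) [Field 𝔽] [Fintype 𝔽], Fintype.card 𝔽 = 4 →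
    ∀ (k : ℕ) (L : Finset (Fin k → 𝔽)), LineFree L →
      (L.card : ℝ) ≤ (4 : ℝ) ^ ((1 - (6 - c) / (6 * (c - 1))) * k)

/-- FINS: the second half of the theorem. -/
def T_FINS : Prop :=
  ∀ c : ℝ, ValidExponent c → c < 16 / 3 →
    ∀ (k : ℕ) (S : Finset ((Fin k → ZMod 2) × (Fin k → ZMod 2))), SqFree S →
      (S.card : ℝ) ≤ (4 : ℝ) ^ ((1 - (16 - 3 * c) / (13 * (c - 1))) * k)

end Pool.Agent.H37.SB
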